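import Pool.Agent.W147.LF.Stm

/-! Subtask LF-IRR. -/

set_option autoImplicit false

namespace Pool.Agent.W883.LF

open Polynomial Pool.Agent.W147.LF

theorem exists_irr (K : Type) [Field K] [Fintype K] (n : ℕ) (hn : 0 < n) :
    ∃ g : K[X], g.Monic ∧ Irreducible g ∧ g.natDegree = n := by
  haveI : NeZero n := ⟨hn.ne'⟩
  haveI : Fact (ringChar K).Prime := ⟨CharP.char_is_prime K (ringChar K)⟩
  obtain ⟨α, hα⟩ := Field.exists_primitive_element_of_finite_bot K
    (FiniteField.Extension K (ringChar K) n)
  have hi : IsIntegral K α := Algebra.IsIntegral.isIntegral α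
  refine ⟨minpoly K α, minpoly.monic hi, minpoly.irreducible hi, ?_⟩
  rw [(Field.primitive_element_iff_minpoly_natDegree_eq K α).1 hα,
    FiniteField.finrank_extension]

theorem t_Irr : S_Irr := by
  classical
  intro K _ _ S B
  choose g hg using fun n : ℕ => exists_irr K (2 * n + 1) (by omega)
  let idx : K[X] → ℕ := fun s => if h : s ∈ S then (S.equivFin ⟨s, h⟩ : ℕ) else 0
  have hidx : ∀ s ∈ S, ∀ t ∈ S, idx s = idx t → s = t := by
    intro s hs t ht h
    simp only [idx, hs, ht, dite_true] at h
    have h1 := S.equivFin.injective (Fin.ext h)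
    exact congrArg Subtype.val h1
  refine ⟨fun s => g (B + idx s), ?_, ?_⟩
  · intro s hs t ht h
    apply hidx s hs t ht
    have h1 := congrArg natDegree h
    simp only [(hg _).2.2] at h1
    omega
  · intro s _
    refine ⟨(hg _).1, (hg _).2.1, ?_, ?_⟩
    · rw [(hg _).2.2]
      exact ⟨_, rfl⟩
    · rw [(hg _).2.2]
      omega

end Pool.Agent.W883.LF
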